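import Pool.Agent.Work.MP_a6e60d_ag.Semi.NoColl
import Pool.Agent.Work.MP_a6e60d_ag.Num.Gen

/-!
MP_a6e60d_ag, Theorem B: semi-exceptional collections and their base change to a quadratic
extension.  `T = Perf X`, `S = Perf X_F`, `P` the inverse image, `τ` the conjugation.
-/

open CategoryTheory Category Limits Pretriangulated Module ZeroObject

set_option linter.unusedSectionVars false

attribute [-instance] CategoryTheory.catToReflQuiver

universe v v' u u' w w'

namespace Orl

open OrlNum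

section Maschke

/-- A quadratic extension of a semisimple ring is semisimple (Maschke). -/
theorem isSemisimpleRing_of_quadratic {A : Type u} {B : Type v} [Ring A] [Ring B]
    [IsSemisimpleRing A] (φ : A →+* B) (s t h : B) (hs : ∀ b, s * b = b * s) (hts : t * s = 1)
    (ha : ∃ a, s * s = φ a) (h2 : h + h = 1) (hh : ∀ b, h * b = b * h)
    (hgen : ∀ b, ∃ a a', b = φ a + s * φ a') : IsSemisimpleRing B := by
  have ht : ∀ b, t * b = b * t := fun b => by
    calc t * b = t * (b * (s * t)) := by rw [hs t, hts, mul_one]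
      _ = t * ((b * s) * t) := by rw [mul_assoc b]
      _ = t * ((s * b) * t) := by rw [hs b]
      _ = (t * s) * (b * t) := by simp only [mul_assoc]
      _ = b * t := by rw [hts, one_mul]
  let _ : Module A B := Module.compHom B φ
  have smul_def : ∀ (a : A) (b : B), a • b = φ a * b := fun _ _ => rfl
  suffices H : ∀ J : Ideal B, ∃ J'' : Ideal B, IsCompl J J'' by
    have : ComplementedLattice (Submodule B B) := ⟨H⟩
    exact (isSemisimpleModule_iff B B).2 this
  intro J
  -- J as a submodule over A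
  let J' : Submodule A B :=
    { carrier := J
      add_mem' := J.add_mem
      zero_mem' := J.zero_mem
      smul_mem' := fun a b hb => J.smul_mem (φ a) hb }
  have hmem : ∀ b, b ∈ J' ↔ b ∈ J := fun _ => Iff.rfl
  obtain ⟨K, hK⟩ := exists_isCompl J'
  let p : B →ₗ[A] J' := Submodule.projectionOnto J' K hK
  have hp : ∀ b (hb : b ∈ J'), (p b : B) = b := fun b hb =>
    congrArg Subtype.val (Submodule.projectionOnto_apply_left hK ⟨b, hb⟩)
  have hpa : ∀ a b, (p (φ a * b) : B) = φ a * p b := fun a b => by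
    have := congrArg Subtype.val (p.map_smul a b)
    exact this
  have hpadd : ∀ b c, (p (b + c) : B) = p b + p c := fun b c => by
    rw [map_add]; rfl
  let q : B → B := fun b => h * (p b + t * p (s * b))
  have hqJ : ∀ b, q b ∈ J := fun b =>
    J.mul_mem_left _ (J.add_mem ((hmem _).1 (p b).2) (J.mul_mem_left _ ((hmem _).1 (p (s * b)).2)))
  have hqadd : ∀ b c, q (b + c) = q b + q c := fun b c => by
    simp only [q, mul_add, hpadd]
    abel
  have hqa : ∀ a b, q (φ a * b) = φ a * q b := fun a b => by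
    simp only [q]
    rw [← mul_assoc s, hs (φ a), mul_assoc, hpa, hpa, ← mul_assoc t, ht (φ a), mul_assoc (φ a),
      ← mul_add, ← mul_assoc, hh (φ a), mul_assoc]
  have hqs : ∀ b, q (s * b) = s * q b := fun b => by
    obtain ⟨a, ha⟩ := ha
    simp only [q]
    have h1 : (p (s * (s * b)) : B) = s * (s * p b) := by
      rw [← mul_assoc, ha, hpa, ← ha, mul_assoc]
    have h3 : t * (s * (s * (p b : B))) = s * p b := by rw [← mul_assoc t, hts, one_mul]
    have h4 : s * (t * (p (s * b) : B)) = p (s * b) := by rw [← mul_assoc, hs t, hts, one_mul]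
    rw [h1, h3, ← mul_assoc s h, ← hh s, mul_assoc h s, mul_add s, h4, add_comm]
  have hq1 : ∀ b ∈ J, q b = b := fun b hb => by
    simp only [q]
    rw [hp b hb, hp (s * b) (J.mul_mem_left _ hb), ← mul_assoc t, hts, one_mul, mul_add, ← add_mul,
      h2, one_mul]
  let Q : B →ₗ[B] J :=
    { toFun := fun b => ⟨q b, hqJ b⟩
      map_add' := fun b c => Subtype.ext (hqadd b c)
      map_smul' := fun b c => Subtype.ext (by
        change q (b * c) = b * q c
        obtain ⟨a, a', rfl⟩ := hgen b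
        rw [add_mul, hqadd, hqa, mul_assoc, hqs, hqa, add_mul, mul_assoc]) }
  exact ⟨LinearMap.ker Q, LinearMap.isCompl_of_proj fun x => Subtype.ext (hq1 x x.2)⟩

end Maschke

section Defs

variable (k : Type w) [Field k] {T : Type u} [Category.{v} T] [Preadditive T] [HasZeroObject T]
  [HasShift T ℤ] [∀ n : ℤ, (shiftFunctor T n).Additive] [Pretriangulated T] [Linear k T]

/-- Semi-exceptional object: Hom(E, E[m]) = 0 for all nonzero m, and the endomorphism ring is a
finite dimensional semisimple algebra. -/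
structure IsSemiExceptional (E : T) : Prop where
  hom : ∀ m : ℤ, m ≠ 0 → ∀ f : E ⟶ E⟦m⟧, f = 0
  fin : Module.Finite k (End E)
  semisimple : IsSemisimpleRing (End E)

/-- Semi-exceptional collection. -/
structure IsSemiExcCollection {n : ℕ} (E : Fin n → T) : Prop where
  obj : ∀ i, IsSemiExceptional k (E i)
  hom : ∀ i j : Fin n, i < j → ∀ (m : ℤ) (f : E j ⟶ (E i)⟦m⟧), f = 0

end Defs

section Base

variable (k : Type w') [Field k] (F : Type w) [Field F]
  {T : Type u} [Category.{v} T] [Preadditive T] [HasZeroObject T]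
  [HasShift T ℤ] [∀ n : ℤ, (shiftFunctor T n).Additive] [Pretriangulated T] [Linear k T]
  {S : Type u'} [Category.{v'} S] [Preadditive S] [HasZeroObject S] [HasShift S ℤ]
  [∀ n : ℤ, (shiftFunctor S n).Additive] [Pretriangulated S] [Linear F S] [HomFin F S]
  [∀ n : ℤ, (shiftFunctor S n).Linear F] [IsIdempotentComplete S]

/-- Theorem B: no full semi-exceptional collection. -/
theorem no_full_semiExceptional_collection
    (P : T ⥤ S) [P.CommShift ℤ] [P.IsTriangulated] (s : F) (hs : s ≠ 0) (h2 : (2 : F) ≠ 0)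
    (hss : ∀ X : T, ∃ c : X ⟶ X, P.map c = (s * s) • 𝟙 (P.obj X))
    (hP : ∀ (X Y : T) (f : P.obj X ⟶ P.obj Y), ∃ a b : X ⟶ Y, f = P.map a + s • P.map b)
    (hret : ∀ N : S, ∃ M : T, Nonempty (Retract N (P.obj M)))
    (τ : S ⥤ S) [τ.CommShift ℤ] [τ.IsTriangulated] [τ.Full] [τ.Faithful]
    (hτ : ∀ X : T, Nonempty (τ.obj (P.obj X) ≅ P.obj X))
    (F1 : ∀ v ∈ Rad3 (chi F (T := S)), ∃ y, v + K0.map τ v = (3 : ℤ) • y)
    (F2 : ∃ v ∈ Rad3 (chi F (T := S)), ∀ y, v ≠ (3 : ℤ) • y) :
    ¬ ∃ (n : ℕ) (E : Fin n → T), IsSemiExcCollection k E ∧ ThickGen E := by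
  rintro ⟨n, E, hE, hfull⟩
  -- vanishing of Hom over F
  have hvan : ∀ (X Y : T) (m : ℤ), (∀ f : X ⟶ Y⟦m⟧, f = 0) →
      ∀ f : P.obj X ⟶ (P.obj Y)⟦m⟧, f = 0 := by
    intro X Y m h f
    obtain ⟨a, b, hab⟩ := hP X (Y⟦m⟧) (f ≫ (P.commShiftIso m).inv.app Y)
    rw [h a, h b, P.map_zero, smul_zero, add_zero] at hab
    rw [← cancel_mono ((P.commShiftIso m).inv.app Y), hab, zero_comp]
  have hreg : ∀ i, Reg (P.obj (E i)) := by
    intro i
    apply reg_of_semisimple
    have := (hE.obj i).semisimple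
    refine isSemisimpleRing_of_quadratic (A := End (E i)) (B := End (P.obj (E i)))
      { toFun := fun a => P.map a
        map_one' := P.map_id _
        map_mul' := fun a b => P.map_comp b a
        map_zero' := P.map_zero _ _
        map_add' := fun a b => P.map_add }
      (s • 𝟙 (P.obj (E i))) (s⁻¹ • 𝟙 (P.obj (E i))) ((2 : F)⁻¹ • 𝟙 (P.obj (E i))) ?_ ?_ ?_ ?_ ?_ ?_
    · intro b
      change b ≫ (s • 𝟙 _) = (s • 𝟙 _) ≫ b
      simp
    · change (s • 𝟙 (P.obj (E i))) ≫ (s⁻¹ • 𝟙 (P.obj (E i))) = 𝟙 _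
      simp [smul_smul, inv_mul_cancel₀ hs]
    · obtain ⟨c, hc⟩ := hss (E i)
      refine ⟨c, ?_⟩
      change (s • 𝟙 (P.obj (E i))) ≫ (s • 𝟙 (P.obj (E i))) = P.map c
      rw [hc]
      simp [smul_smul]
    · change (2 : F)⁻¹ • 𝟙 (P.obj (E i)) + (2 : F)⁻¹ • 𝟙 (P.obj (E i)) = 𝟙 _
      rw [← add_smul, ← two_mul, mul_inv_cancel₀ h2, one_smul]
    · intro b
      change b ≫ ((2 : F)⁻¹ • 𝟙 _) = ((2 : F)⁻¹ • 𝟙 _) ≫ b
      simp
    · intro b
      obtain ⟨a, a', hb⟩ := hP _ _ b
      refine ⟨a, a', ?_⟩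
      change b = P.map a + P.map a' ≫ (s • 𝟙 _)
      rw [hb]
      simp
  refine no_semiexceptional F (fun i => P.obj (E (Fin.rev i))) (fun i => hreg _)
    (fun i => noShift_of_target fun m hm => hvan _ _ m ((hE.obj _).hom m hm))
    (fun i j hij => orth_of_target fun m => hvan _ _ m
      (hE.hom _ _ (Fin.rev_lt_rev.2 hij) m))
    (fun N hN => hfull.isZero_map P (fun i => ?_) (hret N)) τ (fun i => hτ _) F1 F2
  have := hN (Fin.rev i)
  rwa [Fin.rev_rev] at this

end Base

end Orl
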