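import Pool.Agent.Work.MP_a6e60d_ag.Semi.NoColl

/-!
MP_a6e60d_ag, Theorem B: the facts F1 and F2 from one explicit full collection over F.
-/

open CategoryTheory Category Limits Pretriangulated Module ZeroObject

set_option linter.unusedSectionVars false

attribute [-instance] CategoryTheory.catToReflQuiver

universe v u w

namespace Orl

open OrlNum

section

variable (F : Type w) [Field F] {T : Type u} [Category.{v} T] [Preadditive T] [HasZeroObject T]
  [HasShift T ℤ] [∀ n : ℤ, (shiftFunctor T n).Additive] [Pretriangulated T] [Linear F T]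

/-- endomorphisms of X act on Hom(X, Y[n]) -/
def actEndLeft (X Y : T) (n : ℤ) : (End X)ᵐᵒᵖ →ₐ[F] Module.End F (X ⟶ Y⟦n⟧) :=
  AlgHom.ofLinearMap
    { toFun := fun d => Linear.leftComp F (Y⟦n⟧) (MulOpposite.unop d)
      map_add' := fun a b => by
        ext f
        change (MulOpposite.unop a + MulOpposite.unop b) ≫ f =
          MulOpposite.unop a ≫ f + MulOpposite.unop b ≫ f
        rw [Preadditive.add_comp]
      map_smul' := fun c a => by
        ext f
        change (c • MulOpposite.unop a) ≫ f = c • (MulOpposite.unop a ≫ f)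
        rw [Linear.smul_comp] }
    (by
      ext f
      change 𝟙 X ≫ f = f
      rw [id_comp])
    (fun a b => by
      ext f
      change (MulOpposite.unop a ≫ MulOpposite.unop b) ≫ f =
        MulOpposite.unop a ≫ (MulOpposite.unop b ≫ f)
      rw [assoc])

variable [HomFin F T] [∀ n : ℤ, (shiftFunctor T n).Linear F]

theorem dvd_chi_divn_left {D : T} (h : Divn D) (h0 : ¬ IsZero D) (x : K0 T) :
    (finrank F (D ⟶ D) : ℤ) ∣ chi F (cls D) x := by
  have hnt : Nontrivial (End D) := by
    refine ⟨⟨𝟙 D, 0, fun h1 => h0 ?_⟩⟩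
    rw [IsZero.iff_id_eq_zero]
    exact h1
  let _ : DivisionRing (End D) := DivisionRing.ofIsUnitOrEqZero fun a => by
    by_cases ha : a = 0
    · exact Or.inr ha
    · left
      have : IsIso (show D ⟶ D from a) := h.iso a ha
      exact (isUnit_iff_isIso a).2 this
  have hfr : finrank F (D ⟶ D) = finrank F (End D)ᵐᵒᵖ :=
    (MulOpposite.opLinearEquiv F (M := End D)).finrank_eq
  induction x using K0.induction with
  | h0 X =>
    rw [chi_cls, hfr]
    exact dvd_eul fun n => finrank_dvd_of_algHom (actEndLeft F D X n)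
  | hz => simp
  | hadd a b ha hb =>
    rw [map_add]
    exact dvd_add ha hb
  | hneg a ha =>
    rw [map_neg]
    exact ha.neg_right

include F in
/-- the classes of a generating semiorthogonal family of division objects generate -/
theorem closure_eq_of_family {n : ℕ} (D : Fin n → T) (hD : ∀ i, Divn (D i))
    (ho : ∀ i j, i < j → Orth (D i) (D j)) (hgen : ∀ N : T, (∀ i, Orth (D i) N) → IsZero N)
    (x : K0 T) : x ∈ AddSubgroup.closure (Set.range fun i => cls (D i)) := by
  have hall : ∀ X : T, cls X ∈ AddSubgroup.closure (Set.range fun i => cls (D i)) := by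
    intro X
    have h4 := mem_span_of_list F (List.ofFn D) (fun Z hZ => by
      obtain ⟨i, rfl⟩ := List.mem_ofFn.1 hZ
      exact hD i) (List.pairwise_ofFn.2 ho)
      (fun N hN => hgen N fun i => hN _ (List.mem_ofFn.2 ⟨i, rfl⟩)) (cls : T → K0 T) isAdd_cls X
    have h5 : (cls '' {Z | Z ∈ List.ofFn D} : Set (K0 T)) ⊆ Set.range fun i => cls (D i) := by
      rintro _ ⟨Z, hZ, rfl⟩
      obtain ⟨i, rfl⟩ := List.mem_ofFn.1 hZ
      exact ⟨i, rfl⟩
    have h6 := Submodule.span_mono (R := ℤ) h5 h4
    rw [← Submodule.mem_toAddSubgroup, Submodule.span_int_eq_addSubgroupClosure] at h6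
    exact h6
  induction x using K0.induction with
  | h0 X => exact hall X
  | hz => exact AddSubgroup.zero_mem _
  | hadd a b ha hb => exact AddSubgroup.add_mem _ ha hb
  | hneg a ha => exact AddSubgroup.neg_mem _ ha

/-- F1 and F2 from an explicit collection `D` (in reversed order: Hom from `D i` to `D j` vanishes
for `i < j`), all of whose members have one dimensional endomorphism algebras, except `D i₀`,
whose endomorphism algebra is a division algebra of dimension 3, and from one relation. -/
theorem facts_of_collection {n : ℕ} (D : Fin n → T) (hD : ∀ i, Divn (D i))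
    (ho : ∀ i j, i < j → Orth (D i) (D j)) (hgen : ∀ N : T, (∀ i, Orth (D i) N) → IsZero N)
    (i₀ : Fin n) (h3 : finrank F (D i₀ ⟶ D i₀) = 3)
    (h1 : ∀ i, i ≠ i₀ → finrank F (D i ⟶ D i) = 1) (τ : K0 T →+ K0 T)
    (hτ : ∃ y, cls (D i₀) + τ (cls (D i₀)) = (3 : ℤ) • y) :
    (∀ v ∈ Rad3 (chi F (T := T)), ∃ y, v + τ v = (3 : ℤ) • y) ∧
      ∃ v ∈ Rad3 (chi F (T := T)), ∀ y, v ≠ (3 : ℤ) • y := by
  have h0 : ¬ IsZero (D i₀) := by
    intro h
    have : Subsingleton (D i₀ ⟶ D i₀) := ⟨fun a b => h.eq_of_src a b⟩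
    rw [finrank_zero_of_subsingleton] at h3
    omega
  have hs : SemiOrth (chi F (T := T)) (fun i => cls (D i)) (fun i : Fin n => (i : ℕ))
      (fun i => (finrank F (D i ⟶ D i) : ℤ)) := by
    refine ⟨fun i => by rw [chi_cls, chiObj_divn F (hD i)], fun i j hij => ?_,
      fun i j hij hne => absurd (Fin.ext hij) hne⟩
    rw [chi_cls]
    exact chiObj_of_orth F (ho i j hij)
  refine facts hs (closure_eq_of_family F D hD ho hgen) i₀ (by simp only [h3]; rfl)
    (fun i hi => by simp only [h1 i hi]; rfl) (fun x => ?_) (fun x => ?_) τ hτ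
  · have := dvd_chi_divn_left F (hD i₀) h0 x
    rw [h3] at this
    exact this
  · have := dvd_chi_divn F (hD i₀) h0 x
    rw [h3] at this
    exact this

end

end Orl
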