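import Pool.Agent.Work.MP_a6e60d_ag.Semi.K0

/-!
MP_a6e60d_ag: the Euler form of a proper triangulated category over a field.
-/

open CategoryTheory CategoryTheory.Limits CategoryTheory.Pretriangulated
open scoped ZeroObject

universe v u w

namespace Orl

section Numeric

variable {F : Type w} [Field F]

/-- the Euler characteristic of a family of dimensions -/
noncomputable def eul (d : ℤ → ℕ) : ℤ := ∑ᶠ n : ℤ, (n.negOnePow : ℤ) * (d n : ℤ)

theorem eul_supp {d : ℤ → ℕ} (h : {n | d n ≠ 0}.Finite) :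
    (Function.support fun n : ℤ => (n.negOnePow : ℤ) * (d n : ℤ)).Finite := by
  refine h.subset fun n hn => ?_
  simp only [Function.mem_support, ne_eq, mul_eq_zero, Units.ne_zero, false_or] at hn
  simpa using hn

theorem eul_add {d e : ℤ → ℕ} (hd : {n | d n ≠ 0}.Finite) (he : {n | e n ≠ 0}.Finite) :
    eul (fun n => d n + e n) = eul d + eul e := by
  unfold eul
  rw [← finsum_add_distrib (eul_supp hd) (eul_supp he)]
  refine finsum_congr fun n => ?_
  push_cast
  ring

theorem eul_shift (d : ℤ → ℕ) : eul (fun n => d (n - 1)) = -eul d := by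
  unfold eul
  rw [← finsum_neg_distrib, ← finsum_comp_equiv (Equiv.addRight (1 : ℤ))]
  refine finsum_congr fun n => ?_
  simp only [Equiv.coe_addRight, add_sub_cancel_right, Int.negOnePow_succ]
  simp

theorem eul_exact {a b c : ℤ → Type v} [∀ n, AddCommGroup (a n)] [∀ n, Module F (a n)]
    [∀ n, AddCommGroup (b n)] [∀ n, Module F (b n)] [∀ n, AddCommGroup (c n)]
    [∀ n, Module F (c n)] [∀ n, Module.Finite F (a n)] [∀ n, Module.Finite F (b n)]
    [∀ n, Module.Finite F (c n)]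
    (f : ∀ n, a n →ₗ[F] b n) (g : ∀ n, b n →ₗ[F] c n) (h : ∀ n, c n →ₗ[F] a (n + 1))
    (hfg : ∀ n, Function.Exact (f n) (g n)) (hgh : ∀ n, Function.Exact (g n) (h n))
    (hhf : ∀ n, Function.Exact (h n) (f (n + 1)))
    (ha : {n | Module.finrank F (a n) ≠ 0}.Finite) (hc : {n | Module.finrank F (c n) ≠ 0}.Finite) :
    eul (fun n => Module.finrank F (b n)) =
      eul (fun n => Module.finrank F (a n)) + eul (fun n => Module.finrank F (c n)) := by
  set rf : ℤ → ℕ := fun n => Module.finrank F (f n).range with hrf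
  set rg : ℤ → ℕ := fun n => Module.finrank F (g n).range with hrg
  set rh : ℤ → ℕ := fun n => Module.finrank F (h n).range with hrh
  have eb : ∀ n, Module.finrank F (b n) = rf n + rg n := fun n => by
    have h1 := (g n).finrank_range_add_finrank_ker
    rw [(hfg n).linearMap_ker_eq] at h1
    change _ = Module.finrank F (f n).range + Module.finrank F (g n).range
    omega
  have ec : ∀ n, Module.finrank F (c n) = rg n + rh n := fun n => by
    have h1 := (h n).finrank_range_add_finrank_ker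
    rw [(hgh n).linearMap_ker_eq] at h1
    change _ = Module.finrank F (g n).range + Module.finrank F (h n).range
    omega
  have ea : ∀ n, Module.finrank F (a n) = rh (n - 1) + rf n := fun n => by
    obtain ⟨m, rfl⟩ : ∃ m, n = m + 1 := ⟨n - 1, by ring⟩
    have h1 := (f (m + 1)).finrank_range_add_finrank_ker
    rw [(hhf m).linearMap_ker_eq] at h1
    rw [add_sub_cancel_right]
    change _ = Module.finrank F (h m).range + Module.finrank F (f (m + 1)).range
    omega
  have sf : {n | rf n ≠ 0}.Finite := ha.subset fun n hn => by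
    have := ea n
    simp only [Set.mem_ofPred_eq] at hn ⊢
    omega
  have sg : {n | rg n ≠ 0}.Finite := hc.subset fun n hn => by
    have := ec n
    simp only [Set.mem_ofPred_eq] at hn ⊢
    omega
  have sh : {n | rh n ≠ 0}.Finite := hc.subset fun n hn => by
    have := ec n
    simp only [Set.mem_ofPred_eq] at hn ⊢
    omega
  have sh' : {n | rh (n - 1) ≠ 0}.Finite := ha.subset fun n hn => by
    have := ea n
    simp only [Set.mem_ofPred_eq] at hn ⊢
    omega
  simp only [eb, ec, ea]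
  rw [eul_add sf sg, eul_add sg sh, eul_add sh' sf, eul_shift]
  ring

end Numeric

section

variable (F : Type w) [Field F] {T : Type u} [Category.{v} T] [HasZeroObject T] [HasShift T ℤ]
  [Preadditive T] [∀ n : ℤ, (shiftFunctor T n).Additive] [Pretriangulated T] [Linear F T]

/-- proper triangulated category: finite dimensional total Hom spaces -/
class IsProper (F : Type w) [Field F] (T : Type u) [Category.{v} T] [HasShift T ℤ]
    [Preadditive T] [Linear F T] : Prop where
  fin : ∀ X Y : T, Module.Finite F (X ⟶ Y)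
  bdd : ∀ X Y : T, {n : ℤ | ∃ f : X ⟶ Y⟦n⟧, f ≠ 0}.Finite

instance [IsProper F T] (X Y : T) : Module.Finite F (X ⟶ Y) := IsProper.fin X Y

omit [HasZeroObject T] [∀ n : ℤ, (shiftFunctor T n).Additive] [Pretriangulated T] in
theorem IsProper.bdd' [IsProper F T] (X Y : T) :
    {n : ℤ | Module.finrank F (X ⟶ Y⟦n⟧) ≠ 0}.Finite := by
  refine (IsProper.bdd (F := F) X Y).subset fun n hn => ?_
  simp only [Set.mem_ofPred_eq] at hn ⊢
  by_contra hne
  push Not at hne
  have : Subsingleton (X ⟶ Y⟦n⟧) := ⟨fun a b => (hne a).trans (hne b).symm⟩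
  exact hn Module.finrank_zero_of_subsingleton

/-- the Euler characteristic of RHom -/
noncomputable def chiObj (X Y : T) : ℤ := eul fun n => Module.finrank F (X ⟶ Y⟦n⟧)

variable [IsProper F T] [∀ n : ℤ, (shiftFunctor T n).Linear F]

omit [∀ n : ℤ, (shiftFunctor T n).Linear F] in
theorem chiObj_tri_right (X : T) (Δ : Triangle T) (hΔ : Δ ∈ distTriang T) :
    chiObj F X Δ.obj₂ = chiObj F X Δ.obj₁ + chiObj F X Δ.obj₃ := by
  unfold chiObj
  let e : ∀ n : ℤ, (Δ.obj₁⟦(1 : ℤ)⟧)⟦n⟧ ⟶ Δ.obj₁⟦n + 1⟧ := fun n =>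
    (shiftFunctorAdd' T 1 n (n + 1) (by ring)).inv.app Δ.obj₁
  let H := preadditiveCoyoneda.obj (Opposite.op X)
  refine eul_exact (F := F) (fun n => Linear.rightComp F X (Δ.mor₁⟦n⟧'))
    (fun n => Linear.rightComp F X (Δ.mor₂⟦n⟧'))
    (fun n => Linear.rightComp F X (Δ.mor₃⟦n⟧' ≫ e n)) ?_ ?_ ?_
    (IsProper.bdd' F X Δ.obj₁) (IsProper.bdd' F X Δ.obj₃)
  · intro n
    exact (ShortComplex.ab_exact_iff_function_exact _).1 (H.homologySequence_exact₂ Δ hΔ n)
  · intro n
    have h := (ShortComplex.ab_exact_iff_function_exact _).1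
      (H.homologySequence_exact₃ Δ hΔ n (n + 1) rfl)
    intro x
    have h1 := h x
    have h2 : H.homologySequenceδ Δ n (n + 1) rfl x = x ≫ Δ.mor₃⟦n⟧' ≫ e n :=
      preadditiveCoyoneda_homologySequenceδ_apply Δ n (n + 1) rfl (A := Opposite.op X) x
    change H.homologySequenceδ Δ n (n + 1) rfl x = 0 ↔ _ at h1
    rw [h2] at h1
    exact h1
  · intro n
    have h := (ShortComplex.ab_exact_iff_function_exact _).1
      (H.homologySequence_exact₁ Δ hΔ n (n + 1) rfl)
    intro x
    have h1 := h x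
    refine h1.trans ?_
    constructor
    · rintro ⟨y, hy⟩
      refine ⟨y, ?_⟩
      rw [← hy]
      exact (preadditiveCoyoneda_homologySequenceδ_apply Δ n (n + 1) rfl
        (A := Opposite.op X) y).symm
    · rintro ⟨y, hy⟩
      refine ⟨y, ?_⟩
      rw [← hy]
      exact preadditiveCoyoneda_homologySequenceδ_apply Δ n (n + 1) rfl
        (A := Opposite.op X) y

theorem chiObj_tri_left (B : T) (Δ : Triangle T) (hΔ : Δ ∈ distTriang T) :
    chiObj F Δ.obj₂ B = chiObj F Δ.obj₁ B + chiObj F Δ.obj₃ B := by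
  unfold chiObj
  let e : ∀ n : ℤ, (B⟦n⟧)⟦(1 : ℤ)⟧ ≅ B⟦n + 1⟧ := fun n =>
    (shiftFunctorAdd' T n 1 (n + 1) rfl).symm.app B
  rw [add_comm]
  refine eul_exact (F := F) (a := fun n => Δ.obj₃ ⟶ B⟦n⟧) (b := fun n => Δ.obj₂ ⟶ B⟦n⟧)
    (c := fun n => Δ.obj₁ ⟶ B⟦n⟧) (fun n => Linear.leftComp F _ Δ.mor₂)
    (fun n => Linear.leftComp F _ Δ.mor₁)
    (fun n =>
      { toFun := fun x => Δ.mor₃ ≫ x⟦(1 : ℤ)⟧' ≫ (e n).hom
        map_add' := fun x y => by simp
        map_smul' := fun c x => by simp [Functor.map_smul] }) ?_ ?_ ?_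
    (IsProper.bdd' F Δ.obj₃ B) (IsProper.bdd' F Δ.obj₁ B)
  · intro n x
    constructor
    · intro h
      obtain ⟨g, hg⟩ := Δ.yoneda_exact₂ hΔ x h
      exact ⟨g, hg.symm⟩
    · rintro ⟨g, rfl⟩
      change Δ.mor₁ ≫ Δ.mor₂ ≫ g = 0
      rw [← Category.assoc, comp_distTriang_mor_zero₁₂ _ hΔ, zero_comp]
  · intro n x
    constructor
    · intro h
      change Δ.mor₃ ≫ x⟦(1 : ℤ)⟧' ≫ (e n).hom = 0 at h
      rw [← Category.assoc, Preadditive.IsIso.comp_right_eq_zero] at h
      obtain ⟨g, hg⟩ := Δ.rotate.yoneda_exact₃ (rot_of_distTriang _ hΔ) (x⟦(1 : ℤ)⟧') h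
      obtain ⟨(g' : Δ.obj₂ ⟶ B⟦n⟧), rfl⟩ := (shiftFunctor T (1 : ℤ)).map_surjective g
      refine ⟨-g', ?_⟩
      apply (shiftFunctor T (1 : ℤ)).map_injective
      rw [hg]
      change (Δ.mor₁ ≫ (-g'))⟦(1 : ℤ)⟧' = (-(Δ.mor₁⟦(1 : ℤ)⟧')) ≫ g'⟦(1 : ℤ)⟧'
      rw [Preadditive.comp_neg, Functor.map_neg, Functor.map_comp, Preadditive.neg_comp]
    · rintro ⟨g, rfl⟩
      change Δ.mor₃ ≫ (Δ.mor₁ ≫ g)⟦(1 : ℤ)⟧' ≫ (e n).hom = 0
      rw [Functor.map_comp, Category.assoc, ← Category.assoc,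
        comp_distTriang_mor_zero₃₁ _ hΔ, zero_comp]
  · intro n x
    constructor
    · intro h
      obtain ⟨g, hg⟩ := Δ.yoneda_exact₃ hΔ x h
      obtain ⟨g', hg'⟩ := (shiftFunctor T (1 : ℤ)).map_surjective (g ≫ (e n).inv)
      refine ⟨g', ?_⟩
      change Δ.mor₃ ≫ g'⟦(1 : ℤ)⟧' ≫ (e n).hom = x
      rw [hg', hg]
      simp
    · rintro ⟨g, rfl⟩
      change Δ.mor₂ ≫ Δ.mor₃ ≫ g⟦(1 : ℤ)⟧' ≫ (e n).hom = 0
      rw [← Category.assoc, comp_distTriang_mor_zero₂₃ _ hΔ, zero_comp]

/-- the Euler form on the Grothendieck group -/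
noncomputable def chi : K0 T →+ K0 T →+ ℤ :=
  K0.lift (fun X => K0.lift (fun Y => chiObj F X Y) (chiObj_tri_right F X))
    (fun Δ hΔ => K0.hom_ext fun B => by
      simp [chiObj_tri_left F B Δ hΔ])

@[simp] theorem chi_cls (X Y : T) : chi F (cls X) (cls Y) = chiObj F X Y := by
  simp [chi]

end

section Divis

variable {F : Type w} [Field F]

theorem finrank_dvd_of_algHom {D : Type u} [DivisionRing D] [Algebra F D]
    {V : Type v} [AddCommGroup V] [Module F V] (ψ : D →ₐ[F] Module.End F V) :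
    Module.finrank F D ∣ Module.finrank F V := by
  let _ : Module D V := Module.compHom V ψ.toRingHom
  have : IsScalarTower F D V := ⟨fun c d v => by
    change ψ (c • d) v = c • ψ d v
    rw [map_smul]
    rfl⟩
  exact ⟨Module.finrank D V, (Module.finrank_mul_finrank F D V).symm⟩

variable {T : Type u} [Category.{v} T] [HasShift T ℤ]
  [Preadditive T] [∀ n : ℤ, (shiftFunctor T n).Additive] [Linear F T]
  [∀ n : ℤ, (shiftFunctor T n).Linear F]

/-- endomorphisms of Y act on Hom(X, Y[n]) -/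
def actEnd (X Y : T) (n : ℤ) : End Y →ₐ[F] Module.End F (X ⟶ Y⟦n⟧) :=
  AlgHom.ofLinearMap
    { toFun := fun d => Linear.rightComp F X (d⟦n⟧')
      map_add' := fun a b => by
        ext f
        change f ≫ (a + b)⟦n⟧' = f ≫ a⟦n⟧' + f ≫ b⟦n⟧'
        rw [Functor.map_add, Preadditive.comp_add]
      map_smul' := fun c a => by
        ext f
        change f ≫ (c • a)⟦n⟧' = c • (f ≫ a⟦n⟧')
        rw [Functor.map_smul, Linear.comp_smul] }
    (by
      ext f
      change f ≫ (𝟙 Y)⟦n⟧' = f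
      rw [CategoryTheory.Functor.map_id, Category.comp_id])
    (fun a b => by
      ext f
      change f ≫ (b ≫ a)⟦n⟧' = (f ≫ b⟦n⟧') ≫ a⟦n⟧'
      rw [Functor.map_comp, Category.assoc])

theorem dvd_eul {m : ℕ} {d : ℤ → ℕ} (h : ∀ n, m ∣ d n) : (m : ℤ) ∣ eul d := by
  choose e he using h
  unfold eul
  simp only [he, Nat.cast_mul]
  by_cases hs : (Function.support fun n : ℤ => (n.negOnePow : ℤ) * ((m : ℤ) * (e n : ℤ))).Finite
  · rw [finsum_eq_sum _ hs]
    refine Finset.dvd_sum fun n _ => ?_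
    exact Dvd.dvd.mul_left (dvd_mul_right _ _) _
  · rw [finsum_of_infinite_support hs]
    exact dvd_zero _

/-- the Euler characteristic is divisible by the dimension of a division algebra acting on the
second object -/
theorem dvd_chiObj {D : Type*} [DivisionRing D] [Algebra F D] {X Y : T}
    (φ : D →ₐ[F] End Y) : (Module.finrank F D : ℤ) ∣ chiObj F X Y :=
  dvd_eul fun n => finrank_dvd_of_algHom ((actEnd X Y n).comp φ)

end Divis

end Orl
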