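import Mathlib

/-!
MP_a6e60d_ag: the Grothendieck group of a triangulated category.
-/

open CategoryTheory CategoryTheory.Limits CategoryTheory.Pretriangulated
open scoped ZeroObject

universe v v' u u' w

namespace Orl

section

variable (T : Type u) [Category.{v} T] [HasZeroObject T] [HasShift T ℤ] [Preadditive T]
  [∀ n : ℤ, (shiftFunctor T n).Additive] [Pretriangulated T]

/-- the relations given by distinguished triangles -/
def K0Rel : AddSubgroup (FreeAbelianGroup T) :=
  AddSubgroup.closure {x | ∃ Δ : Triangle T, Δ ∈ distTriang T ∧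
    x = FreeAbelianGroup.of Δ.obj₂ - (FreeAbelianGroup.of Δ.obj₁ + FreeAbelianGroup.of Δ.obj₃)}

/-- the Grothendieck group of a triangulated category -/
abbrev K0 : Type u := FreeAbelianGroup T ⧸ K0Rel T

end

section

variable {T : Type u} [Category.{v} T] [HasZeroObject T] [HasShift T ℤ] [Preadditive T]
  [∀ n : ℤ, (shiftFunctor T n).Additive] [Pretriangulated T]

/-- the class of an object -/
def cls (X : T) : K0 T := QuotientAddGroup.mk' (K0Rel T) (FreeAbelianGroup.of X)

theorem cls_tri (Δ : Triangle T) (h : Δ ∈ distTriang T) :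
    cls Δ.obj₂ = cls Δ.obj₁ + cls Δ.obj₃ := by
  rw [← sub_eq_zero]
  unfold cls
  rw [← map_add, ← map_sub]
  exact (QuotientAddGroup.eq_zero_iff _).2 (AddSubgroup.subset_closure ⟨Δ, h, rfl⟩)

theorem K0.induction {p : K0 T → Prop} (h0 : ∀ X : T, p (cls X)) (hz : p 0)
    (hadd : ∀ a b, p a → p b → p (a + b)) (hneg : ∀ a, p a → p (-a)) (x : K0 T) : p x := by
  obtain ⟨x, rfl⟩ := QuotientAddGroup.mk'_surjective (K0Rel T) x
  induction x using FreeAbelianGroup.induction_on with
  | zero => simpa using hz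
  | of X => exact h0 X
  | neg X h => rw [map_neg]; exact hneg _ h
  | add a b ha hb => rw [map_add]; exact hadd _ _ ha hb

theorem cls_eq_zero {X : T} (h : IsZero X) : cls X = 0 := by
  have h1 := cls_tri _ (contractible_distinguished X)
  have h2 := cls_tri _ (contractible_distinguished (0 : T))
  have h3 : cls (0 : T) = 0 := by simpa using h2
  have h4 : Triangle.mk (0 : X ⟶ X) (0 : X ⟶ X) (0 : X ⟶ X⟦(1 : ℤ)⟧) ∈ distTriang T := by
    refine isomorphic_distinguished _ (contractible_distinguished X) _ ?_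
    refine Triangle.isoMk _ _ (Iso.refl _) (Iso.refl _) (h.iso (isZero_zero _)) ?_ ?_ ?_
    · exact h.eq_of_src _ _
    · exact h.eq_of_src _ _
    · exact h.eq_of_src _ _
  have h5 := cls_tri _ h4
  simpa using h5

theorem cls_iso {X Y : T} (e : X ≅ Y) : cls X = cls Y := by
  have h4 : Triangle.mk e.hom (0 : Y ⟶ (0 : T)) (0 : (0 : T) ⟶ X⟦(1 : ℤ)⟧) ∈ distTriang T := by
    refine isomorphic_distinguished _ (contractible_distinguished X) _ ?_
    refine Triangle.isoMk _ _ (Iso.refl _) e.symm (Iso.refl _) ?_ ?_ ?_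
    · change e.hom ≫ e.inv = 𝟙 X ≫ 𝟙 X
      simp
    · change (0 : Y ⟶ (0 : T)) ≫ 𝟙 _ = e.inv ≫ 0
      simp
    · change (0 : (0 : T) ⟶ X⟦(1 : ℤ)⟧) ≫ (shiftFunctor T (1 : ℤ)).map (𝟙 X) = 𝟙 _ ≫ 0
      simp
  have h5 := cls_tri _ h4
  have h6 : cls (0 : T) = 0 := cls_eq_zero (isZero_zero _)
  simp only [Triangle.mk_obj₁, Triangle.mk_obj₂, Triangle.mk_obj₃, h6, add_zero] at h5
  exact h5.symm

theorem cls_shift_one (X : T) : cls (X⟦(1 : ℤ)⟧) = -cls X := by
  have h := cls_tri _ (rot_of_distTriang _ (contractible_distinguished X))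
  have h6 : cls (0 : T) = 0 := cls_eq_zero (isZero_zero _)
  simp only [Triangle.rotate, Triangle.mk_obj₁, Triangle.mk_obj₂, Triangle.mk_obj₃,
    contractibleTriangle_obj₁, contractibleTriangle_obj₂, contractibleTriangle_obj₃, h6] at h
  exact (neg_eq_of_add_eq_zero_right h.symm).symm

theorem cls_shift (X : T) (n : ℤ) : cls (X⟦n⟧) = (n.negOnePow : ℤ) • cls X := by
  induction n using Int.induction_on with
  | zero => simpa using cls_iso ((shiftFunctorZero T ℤ).app X)
  | succ n ih =>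
    rw [cls_iso ((shiftFunctorAdd T (n : ℤ) 1).app X)]
    change cls ((X⟦(n : ℤ)⟧)⟦(1 : ℤ)⟧) = _
    rw [cls_shift_one, ih, Int.negOnePow_succ]
    simp
  | pred n ih =>
    have h : cls (X⟦(-(n : ℤ))⟧) = -cls (X⟦(-(n : ℤ) - 1)⟧) := by
      rw [← cls_shift_one]
      refine cls_iso ?_
      exact (shiftFunctorAdd' T (-(n : ℤ) - 1) 1 (-(n : ℤ)) (by ring)).app X
    rw [← neg_eq_iff_eq_neg] at h
    rw [← h, ih, Int.negOnePow_sub]
    simp

theorem cls_biprod (X Y : T) [HasBinaryBiproduct X Y] : cls (X ⊞ Y) = cls X + cls Y :=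
  cls_tri _ (binaryBiproductTriangle_distinguished X Y)

/-- additive functions on triangles -/
def K0.lift {A : Type w} [AddCommGroup A] (φ : T → A)
    (h : ∀ Δ ∈ distTriang T, φ Δ.obj₂ = φ Δ.obj₁ + φ Δ.obj₃) : K0 T →+ A :=
  QuotientAddGroup.lift (K0Rel T) (FreeAbelianGroup.lift φ) (by
    intro x hx
    have : K0Rel T ≤ (FreeAbelianGroup.lift φ).ker := by
      rw [K0Rel, AddSubgroup.closure_le]
      rintro _ ⟨Δ, hΔ, rfl⟩
      simp [AddMonoidHom.mem_ker, h Δ hΔ]
    exact this hx)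

@[simp] theorem K0.lift_cls {A : Type w} [AddCommGroup A] (φ : T → A)
    (h : ∀ Δ ∈ distTriang T, φ Δ.obj₂ = φ Δ.obj₁ + φ Δ.obj₃) (X : T) :
    K0.lift φ h (cls X) = φ X := by
  change QuotientAddGroup.lift (K0Rel T) (FreeAbelianGroup.lift φ) _
    (QuotientAddGroup.mk (FreeAbelianGroup.of X)) = _
  rw [QuotientAddGroup.lift_mk, FreeAbelianGroup.lift_apply_of]

theorem K0.hom_ext {A : Type w} [AddCommGroup A] {φ ψ : K0 T →+ A}
    (h : ∀ X : T, φ (cls X) = ψ (cls X)) : φ = ψ := by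
  refine DFunLike.ext _ _ fun x => ?_
  induction x using K0.induction with
  | h0 X => exact h X
  | hz => simp
  | hadd a b ha hb => simp [ha, hb]
  | hneg a ha => simp [ha]

variable {T' : Type u'} [Category.{v'} T'] [HasZeroObject T'] [HasShift T' ℤ] [Preadditive T']
  [∀ n : ℤ, (shiftFunctor T' n).Additive] [Pretriangulated T']

/-- a triangulated functor acts on Grothendieck groups -/
def K0.map (Φ : T ⥤ T') [Φ.CommShift ℤ] [Φ.IsTriangulated] : K0 T →+ K0 T' :=
  K0.lift (fun X => cls (Φ.obj X)) (fun Δ hΔ => cls_tri _ (Φ.map_distinguished Δ hΔ))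

@[simp] theorem K0.map_cls (Φ : T ⥤ T') [Φ.CommShift ℤ] [Φ.IsTriangulated] (X : T) :
    K0.map Φ (cls X) = cls (Φ.obj X) := K0.lift_cls _ _ _

end

end Orl
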