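import Mathlib

/-!
MP_a6e60d_ag, Theorem B: the arithmetic modulo 3.  `M` is the Grothendieck group of a surface over
the quadratic extension, `χ` the Euler form, `τ` the action of the conjugation.
-/

namespace Orl

variable {M : Type*} [AddCommGroup M] (χ : M →+ M →+ ℤ)

/-- the left radical of the form modulo 3 -/
def Rad3 : AddSubgroup M where
  carrier := {v | ∀ x, (3 : ℤ) ∣ χ v x}
  zero_mem' := fun x => by simp
  add_mem' := fun {a b} ha hb x => by
    rw [map_add, AddMonoidHom.add_apply]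
    exact dvd_add (ha x) (hb x)
  neg_mem' := fun {a} ha x => by
    rw [map_neg, AddMonoidHom.neg_apply]
    exact (ha x).neg_right

theorem mem_Rad3 {v : M} : v ∈ Rad3 χ ↔ ∀ x, (3 : ℤ) ∣ χ v x := Iff.rfl

variable {χ}

theorem mem_Rad3_of_span {ι : Type*} {d : ι → M}
    (hspan : ∀ x : M, x ∈ AddSubgroup.closure (Set.range d)) {v : M}
    (h : ∀ i, (3 : ℤ) ∣ χ v (d i)) : v ∈ Rad3 χ := by
  intro x
  induction hspan x using AddSubgroup.closure_induction with
  | mem x hx =>
    obtain ⟨i, rfl⟩ := hx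
    exact h i
  | zero => simp
  | add a b _ _ ha hb =>
    rw [map_add]
    exact dvd_add ha hb
  | neg a _ ha =>
    rw [map_neg]
    exact ha.neg_right

/-- An integer combination of the d i, c i in the coefficients. -/
theorem exists_coeff {ι : Type*} [Fintype ι] {d : ι → M}
    (hspan : ∀ x : M, x ∈ AddSubgroup.closure (Set.range d)) (x : M) :
    ∃ c : ι → ℤ, x = ∑ i, c i • d i := by
  classical
  induction hspan x using AddSubgroup.closure_induction with
  | mem x hx =>
    obtain ⟨i, rfl⟩ := hx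
    refine ⟨Pi.single i 1, ?_⟩
    simp [Pi.single_apply, ite_smul]
  | zero => exact ⟨0, by simp⟩
  | add a b _ _ ha hb =>
    obtain ⟨c, rfl⟩ := ha
    obtain ⟨c', rfl⟩ := hb
    exact ⟨c + c', by simp [add_smul, Finset.sum_add_distrib]⟩
  | neg a _ ha =>
    obtain ⟨c, rfl⟩ := ha
    exact ⟨-c, by simp⟩

/-- A semiorthogonal system: the form vanishes on (d i, d j) if the block of i is smaller than
the block of j, and inside a block if i and j are different. -/
structure SemiOrth (χ : M →+ M →+ ℤ) {ι : Type*} (d : ι → M) (β : ι → ℕ) (δ : ι → ℤ) : Prop where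
  diag : ∀ i, χ (d i) (d i) = δ i
  lt : ∀ i j, β i < β j → χ (d i) (d j) = 0
  same : ∀ i j, β i = β j → i ≠ j → χ (d i) (d j) = 0

variable {ι : Type*} [Fintype ι] {d : ι → M} {β : ι → ℕ} {δ : ι → ℤ}

/-- the coefficients of an element of the radical are divisible by 3 except possibly the
coefficients of the d i with 3 dividing δ i -/
theorem coeff_dvd (hs : SemiOrth χ d β δ)
    (hd : ∀ i, (3 : ℤ) ∣ δ i → ∀ x, (3 : ℤ) ∣ χ (d i) x) {c : ι → ℤ}
    (h : ∀ x, (3 : ℤ) ∣ χ (∑ i, c i • d i) x) (i : ι) (hi : ¬ (3 : ℤ) ∣ δ i) : (3 : ℤ) ∣ c i := by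
  classical
  obtain ⟨N, hN⟩ : ∃ N, ∀ j, β j < N := by
    obtain ⟨N, hN⟩ := (Set.finite_range β).bddAbove
    exact ⟨N + 1, fun j => Nat.lt_succ_of_le (hN ⟨j, rfl⟩)⟩
  suffices H : ∀ m, ∀ i, N ≤ β i + m → ¬ (3 : ℤ) ∣ δ i → (3 : ℤ) ∣ c i from
    H N i (by omega) hi
  clear i hi
  intro m
  induction m with
  | zero => intro i hi; exact absurd (hN i) (by omega)
  | succ m ih =>
    intro i hi hδ
    have h1 := h (d i)
    rw [map_sum, AddMonoidHom.finsetSum_apply, ← Finset.add_sum_erase _ _ (Finset.mem_univ i)] at h1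
    have h2 : (3 : ℤ) ∣ ∑ j ∈ Finset.univ.erase i, χ (c j • d j) (d i) := by
      refine Finset.dvd_sum fun j hj => ?_
      have hji : j ≠ i := Finset.ne_of_mem_erase hj
      rw [map_zsmul, AddMonoidHom.smul_apply, smul_eq_mul]
      rcases lt_trichotomy (β j) (β i) with hlt | heq | hgt
      · rw [hs.lt j i hlt]; simp
      · rw [hs.same j i heq hji]; simp
      · by_cases h3 : (3 : ℤ) ∣ δ j
        · exact (hd j h3 _).mul_left _
        · exact (ih j (by omega) h3).mul_right _
    have h3 : (3 : ℤ) ∣ χ (c i • d i) (d i) := (dvd_add_left h2).1 h1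
    rw [map_zsmul, AddMonoidHom.smul_apply, smul_eq_mul, hs.diag] at h3
    exact (Int.prime_three.dvd_or_dvd h3).resolve_right hδ

/-- Theorem B, arithmetic part. -/
theorem no_collection (hs : SemiOrth χ d β δ) (hspan : ∀ x, x ∈ AddSubgroup.closure (Set.range d))
    (hdiv : ∀ i x, δ i ∣ χ x (d i)) (hδ : ∀ i, δ i ≠ 0) (τ : M →+ M) (σ : ι → ι)
    (hτ : ∀ i, τ (d i) = d (σ i)) (hβ : ∀ i, β (σ i) = β i)
    (F1 : ∀ v ∈ Rad3 χ, ∃ y, v + τ v = (3 : ℤ) • y)
    (F2 : ∃ v ∈ Rad3 χ, ∀ y, v ≠ (3 : ℤ) • y) : False := by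
  classical
  -- some d i is divisible by 3
  have hex : ∃ i, (3 : ℤ) ∣ δ i := by
    by_contra hne
    push Not at hne
    obtain ⟨v, hv, hv'⟩ := F2
    obtain ⟨c, rfl⟩ := exists_coeff hspan v
    have h1 : ∀ i, (3 : ℤ) ∣ c i := fun i =>
      coeff_dvd hs (fun i hi => absurd hi (hne i)) (fun x => hv x) i (hne i)
    choose e he using h1
    refine hv' (∑ i, e i • d i) ?_
    rw [Finset.smul_sum]
    refine Finset.sum_congr rfl fun i _ => ?_
    rw [he i, mul_smul]
  -- take one with β i minimal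
  obtain ⟨j, hj, hmin⟩ : ∃ j, (3 : ℤ) ∣ δ j ∧ ∀ i, (3 : ℤ) ∣ δ i → β j ≤ β i := by
    obtain ⟨j, hj, hmin⟩ := Finset.exists_min_image (Finset.univ.filter fun i => (3 : ℤ) ∣ δ i) β
      (by obtain ⟨i, hi⟩ := hex; exact ⟨i, by simpa using hi⟩)
    exact ⟨j, by simpa using hj, fun i hi => hmin i (by simpa using hi)⟩
  -- solve for the coefficients of the smaller blocks
  have hsol : ∀ m : ℕ, ∃ c : ι → ℤ, (∀ a, β j ≤ β a → c a = 0) ∧
      ∀ b, β j ≤ β b + m → (3 : ℤ) ∣ χ (d j + ∑ a, c a • d a) (d b) := by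
    intro m
    induction m with
    | zero =>
      refine ⟨0, fun _ _ => rfl, fun b hb => ?_⟩
      simp only [Pi.zero_apply, zero_smul, Finset.sum_const_zero, add_zero]
      rcases lt_or_eq_of_le hb with hlt | heq
      · rw [hs.lt j b (by simpa using hlt)]; simp
      · by_cases hjb : j = b
        · subst hjb
          rw [hs.diag]; exact hj
        · rw [hs.same j b (by simpa using heq) hjb]; simp
    | succ m ih =>
      obtain ⟨c, hc0, hc⟩ := ih
      -- new coefficients in the block β b + (m + 1) = β j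
      have hinv : ∀ b, β b < β j → ∃ t : ℤ, (3 : ℤ) ∣ χ (d j + ∑ a, c a • d a) (d b) + t * δ b := by
        intro b hb
        have h3 : ¬ (3 : ℤ) ∣ δ b := fun h => absurd (hmin b h) (by omega)
        have hcop : IsCoprime (3 : ℤ) (δ b) := (Int.prime_three.coprime_iff_not_dvd).2 h3
        obtain ⟨u, w, huw⟩ := hcop
        refine ⟨-χ (d j + ∑ a, c a • d a) (d b) * w, ?_⟩
        refine ⟨χ (d j + ∑ a, c a • d a) (d b) * u, ?_⟩
        linear_combination (-(χ (d j + ∑ a, c a • d a) (d b))) * huw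
      choose! t ht using hinv
      refine ⟨fun a => c a + if β a + (m + 1) = β j then t a else 0, ?_, ?_⟩
      · intro a ha
        simp only [hc0 a ha, zero_add]
        rw [if_neg (by omega)]
      · intro b hb
        have hsum : d j + ∑ a, (c a + if β a + (m + 1) = β j then t a else 0) • d a =
            (d j + ∑ a, c a • d a) +
              ∑ a, (if β a + (m + 1) = β j then t a else 0) • d a := by
          simp only [add_smul, Finset.sum_add_distrib]
          abel
        rw [hsum, map_add, AddMonoidHom.add_apply]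
        have hsecond : χ (∑ a, (if β a + (m + 1) = β j then t a else 0) • d a) (d b) =
            if β b + (m + 1) = β j then t b * δ b else 0 := by
          rw [map_sum, AddMonoidHom.finsetSum_apply]
          rw [Finset.sum_eq_single b]
          · rw [map_zsmul, AddMonoidHom.smul_apply, hs.diag, smul_eq_mul]
            split_ifs <;> simp
          · intro a _ hab
            rw [map_zsmul, AddMonoidHom.smul_apply, smul_eq_mul]
            split_ifs with h
            · rcases lt_or_eq_of_le (show β a ≤ β b by omega) with hlt | heq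
              · rw [hs.lt a b hlt]; simp
              · rw [hs.same a b heq hab]; simp
            · simp
          · intro h; exact absurd (Finset.mem_univ b) h
        rw [hsecond]
        split_ifs with h
        · exact ht b (by omega)
        · rw [add_zero]
          exact hc b (by omega)
  obtain ⟨c, hc0, hc⟩ := hsol (β j)
  set v := d j + ∑ a, c a • d a with hv
  have hvR : v ∈ Rad3 χ := mem_Rad3_of_span hspan fun b => hc b (by omega)
  obtain ⟨y, hy⟩ := F1 v hvR
  -- apply χ(., d j)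
  have h1 : χ (v + τ v) (d j) = 3 * χ y (d j) := by
    rw [hy, map_zsmul, AddMonoidHom.smul_apply, smul_eq_mul]
  obtain ⟨z, hz⟩ := hdiv j y
  have h2 : ∀ a, χ (c a • d a) (d j) = 0 := by
    intro a
    rw [map_zsmul, AddMonoidHom.smul_apply, smul_eq_mul]
    by_cases ha : β j ≤ β a
    · rw [hc0 a ha]; simp
    · rw [hs.lt a j (by omega)]; simp
  have h3 : ∀ a, χ (τ (c a • d a)) (d j) = 0 := by
    intro a
    rw [map_zsmul, hτ, map_zsmul, AddMonoidHom.smul_apply, smul_eq_mul]
    by_cases ha : β j ≤ β a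
    · rw [hc0 a ha]; simp
    · rw [hs.lt (σ a) j (by rw [hβ]; omega)]; simp
  have h4 : χ v (d j) = δ j := by
    rw [hv, map_add, AddMonoidHom.add_apply, hs.diag, map_sum, AddMonoidHom.finsetSum_apply,
      Finset.sum_eq_zero fun a _ => h2 a, add_zero]
  have h5 : χ (τ v) (d j) = χ (d (σ j)) (d j) := by
    rw [hv, map_add, map_add, AddMonoidHom.add_apply, hτ, map_sum, map_sum,
      AddMonoidHom.finsetSum_apply, Finset.sum_eq_zero fun a _ => h3 a, add_zero]
  rw [map_add, AddMonoidHom.add_apply, h4, h5, hz] at h1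
  have hδj := hδ j
  by_cases hσ : σ j = j
  · rw [hσ, hs.diag] at h1
    have h6 : δ j * (2 - 3 * z) = 0 := by linear_combination h1
    rcases mul_eq_zero.1 h6 with h | h
    · exact hδj h
    · omega
  · rw [hs.same _ _ (hβ j) hσ] at h1
    have h6 : δ j * (1 - 3 * z) = 0 := by linear_combination h1
    rcases mul_eq_zero.1 h6 with h | h
    · exact hδj h
    · omega

/-- The facts F1 and F2 from an explicit collection with one member b = d i0 of dimension 3. -/
theorem facts (hs : SemiOrth χ d β δ) (hspan : ∀ x, x ∈ AddSubgroup.closure (Set.range d))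
    (i₀ : ι) (h0 : δ i₀ = 3) (h1 : ∀ i, i ≠ i₀ → δ i = 1) (hl : ∀ x, (3 : ℤ) ∣ χ (d i₀) x)
    (hr : ∀ x, (3 : ℤ) ∣ χ x (d i₀)) (τ : M →+ M) (hτ : ∃ y, d i₀ + τ (d i₀) = (3 : ℤ) • y) :
    (∀ v ∈ Rad3 χ, ∃ y, v + τ v = (3 : ℤ) • y) ∧ ∃ v ∈ Rad3 χ, ∀ y, v ≠ (3 : ℤ) • y := by
  classical
  have h3 : ∀ i, (3 : ℤ) ∣ δ i → i = i₀ := fun i hi => by
    by_contra hne
    rw [h1 i hne] at hi
    norm_num at hi
  constructor
  · intro v hv
    obtain ⟨c, rfl⟩ := exists_coeff hspan v
    have hc : ∀ i, i ≠ i₀ → (3 : ℤ) ∣ c i := fun i hi =>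
      coeff_dvd hs (fun i hi => by rw [h3 i hi]; exact hl) (fun x => hv x) i
        (fun h => hi (h3 i h))
    choose! e he using hc
    obtain ⟨y, hy⟩ := hτ
    refine ⟨c i₀ • y + ∑ i ∈ Finset.univ.erase i₀, e i • (d i + τ (d i)), ?_⟩
    rw [map_sum, ← Finset.sum_add_distrib, ← Finset.add_sum_erase _ _ (Finset.mem_univ i₀),
      smul_add, Finset.smul_sum]
    congr 1
    · rw [map_zsmul, ← smul_add, hy, smul_comm]
    · refine Finset.sum_congr rfl fun i hi => ?_
      rw [map_zsmul, ← smul_add, he i (Finset.ne_of_mem_erase hi), mul_smul]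
  · refine ⟨d i₀, fun x => hl x, fun y hy => ?_⟩
    have h4 := hs.diag i₀
    obtain ⟨z, hz⟩ := hr y
    rw [h0] at h4
    have h5 : χ (d i₀) (d i₀) = 3 * χ y (d i₀) :=
      (congrArg (fun t => χ t (d i₀)) hy).trans (by
        simp only [map_zsmul, AddMonoidHom.smul_apply, smul_eq_mul])
    rw [h4, hz] at h5
    omega

end Orl
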