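import Pool.Agent.Work.MP_a6e60d_ag.Semi.Euler
import Pool.Agent.Work.MP_a6e60d_ag.Semi.Mod3
import Pool.Agent.Work.MP_a6e60d_ag.Num.Split

/-!
MP_a6e60d_ag, Theorem B, categorical part over the quadratic extension: no full semi-exceptional
collection stable under the conjugation.
-/

open CategoryTheory Category Limits Pretriangulated Module ZeroObject

set_option linter.unusedSectionVars false

attribute [-instance] CategoryTheory.catToReflQuiver

universe v v' u u' w

namespace Orl

open OrlNum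

section

variable (F : Type w) [Field F] {T : Type u} [Category.{v} T] [Preadditive T] [HasZeroObject T]
  [HasShift T ℤ] [∀ n : ℤ, (shiftFunctor T n).Additive] [Pretriangulated T] [Linear F T]

theorem Orth.target {X Y : T} (h : Orth X Y) (n : ℤ) (f : X ⟶ Y⟦n⟧) : f = 0 := by
  have h1 : (shiftFunctorZero T ℤ).hom.app X ≫ f = 0 := h.shift _
  rw [← cancel_epi ((shiftFunctorZero T ℤ).hom.app X), h1, comp_zero]

variable [HomFin F T]

instance isProper_of_homFin : IsProper F T where
  fin := HomFin.fin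
  bdd X Y := by
    obtain ⟨N, hN⟩ := HomFin.bdd F X Y
    refine (Set.finite_Icc (-(N : ℤ)) N).subset fun n hn => ?_
    obtain ⟨f, hf⟩ := hn
    by_contra h
    apply hf
    have h1 : N < (-n).natAbs := by
      simp only [Set.mem_Icc, not_and_or, not_le] at h
      omega
    have h3 : f⟦-n⟧' ≫ (shiftFunctorCompIsoId T n (-n) (by ring)).hom.app Y = 0 :=
      hN (-n) h1 _
    have h4 : f⟦-n⟧' = 0 := by
      rw [← cancel_mono ((shiftFunctorCompIsoId T n (-n) (by ring)).hom.app Y), h3]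
      simp
    exact (shiftFunctor T (-n)).map_eq_zero_iff.mp h4

variable [∀ n : ℤ, (shiftFunctor T n).Linear F]

theorem chiObj_of_orth {X Y : T} (h : Orth X Y) : chiObj F X Y = 0 := by
  unfold chiObj eul
  refine finsum_eq_zero_of_forall_eq_zero fun n => ?_
  have : Subsingleton (X ⟶ Y⟦n⟧) := ⟨fun a b => by rw [Orth.target h n a, Orth.target h n b]⟩
  have h1 : finrank F (X ⟶ Y⟦n⟧) = 0 := finrank_zero_of_subsingleton
  simp [h1]

theorem Divn.target {D : T} (h : Divn D) {n : ℤ} (hn : n ≠ 0) (f : D ⟶ D⟦n⟧) : f = 0 := by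
  have h1 : (shiftFunctorZero T ℤ).hom.app D ≫ f = 0 := h.shift' (fun h => hn h.symm) _
  rw [← cancel_epi ((shiftFunctorZero T ℤ).hom.app D), h1, comp_zero]

theorem chiObj_divn {D : T} (h : Divn D) : chiObj F D D = finrank F (D ⟶ D) := by
  unfold chiObj eul
  rw [finsum_eq_single _ (0 : ℤ)]
  · rw [Int.negOnePow_zero]
    have e : (D ⟶ D⟦(0 : ℤ)⟧) ≃ₗ[F] (D ⟶ D) :=
      Linear.homCongr F (Iso.refl D) ((shiftFunctorZero T ℤ).app D)
    have h1 := e.finrank_eq
    simp [h1]
  · intro n hn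
    have : Subsingleton (D ⟶ D⟦n⟧) := ⟨fun a b => by
      rw [Divn.target h hn a, Divn.target h hn b]⟩
    have h1 : finrank F (D ⟶ D⟦n⟧) = 0 := finrank_zero_of_subsingleton
    simp [h1]

theorem dvd_chi_divn {D : T} (h : Divn D) (h0 : ¬ IsZero D) (x : K0 T) :
    (finrank F (D ⟶ D) : ℤ) ∣ chi F x (cls D) := by
  have hnt : Nontrivial (End D) := by
    refine ⟨⟨𝟙 D, 0, fun h1 => h0 ?_⟩⟩
    rw [IsZero.iff_id_eq_zero]
    exact h1
  let _ : DivisionRing (End D) := DivisionRing.ofIsUnitOrEqZero fun a => by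
    by_cases ha : a = 0
    · exact Or.inr ha
    · left
      have : IsIso (show D ⟶ D from a) := h.iso a ha
      exact (isUnit_iff_isIso a).2 this
  induction x using K0.induction with
  | h0 X =>
    rw [chi_cls]
    exact dvd_chiObj (F := F) (D := End D) (AlgHom.id F (End D))
  | hz => simp
  | hadd a b ha hb =>
    rw [map_add, AddMonoidHom.add_apply]
    exact dvd_add ha hb
  | hneg a ha =>
    rw [map_neg, AddMonoidHom.neg_apply]
    exact ha.neg_right

theorem isAdd_cls : IsAdd (cls : T → K0 T) := fun Δ h => cls_tri Δ h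

variable [IsIdempotentComplete T]

/-- An object of a semi-exceptional block which is a division retract is isomorphic to a member of
the list of the block. -/
theorem exists_iso_mem {E : T} (hr : Reg E) (hs : NoShift E) {l : List T}
    (hl : ∀ D ∈ l, Divn D ∧ ¬ IsZero D ∧ Nonempty (Retract D E))
    (ho : ∀ N : T, (∀ D ∈ l, Orth D N) → Orth E N) {X : T} (p : Retract X E)
    (hX : ∀ f : X ⟶ X, f ≠ 0 → IsIso f) (h0 : ¬ IsZero X) : ∃ D ∈ l, Nonempty (X ≅ D) := by
  by_contra hne
  push Not at hne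
  have h1 : Orth E X := ho X fun D hD => by
    obtain ⟨h2, -, ⟨q⟩⟩ := hl D hD
    refine (iso_or_orth hr hs q p h2.iso hX).resolve_left ?_
    rintro ⟨φ⟩
    exact (hne D hD).false φ.symm
  apply h0
  rw [IsZero.iff_id_eq_zero, ← p.retract]
  have h2 : (shiftFunctorZero T ℤ).hom.app E ≫ p.r = 0 := h1 0 _
  have h3 : p.r = 0 := by
    rw [← cancel_epi ((shiftFunctorZero T ℤ).hom.app E), h2, comp_zero]
  rw [h3, comp_zero]

/-- Theorem B over the quadratic extension. -/
theorem no_semiexceptional {n : ℕ} (E : Fin n → T) (hr : ∀ i, Reg (E i))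
    (hs : ∀ i, NoShift (E i)) (ho : ∀ i j, i < j → Orth (E i) (E j))
    (hgen : ∀ N : T, (∀ i, Orth (E i) N) → IsZero N) (τ : T ⥤ T) [τ.CommShift ℤ]
    [τ.IsTriangulated] [τ.Full] [τ.Faithful] (hτ : ∀ i, Nonempty (τ.obj (E i) ≅ E i))
    (F1 : ∀ v ∈ Rad3 (chi F (T := T)), ∃ y, v + K0.map τ v = (3 : ℤ) • y)
    (F2 : ∃ v ∈ Rad3 (chi F (T := T)), ∀ y, v ≠ (3 : ℤ) • y) : False := by
  classical
  choose l hl hp hO using fun i => exists_list F (E i) (hr i) (hs i)
  let ι := Σ i : Fin n, Fin (l i).length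
  let D : ι → T := fun a => (l a.1).get a.2
  have hD : ∀ a, D a ∈ l a.1 := fun a => List.get_mem _ _
  have hdiv : ∀ a, Divn (D a) := fun a => (hl _ _ (hD a)).1
  have hnz : ∀ a, ¬ IsZero (D a) := fun a => (hl _ _ (hD a)).2.1
  -- permutation by τ
  have hperm : ∀ a : ι, ∃ b : ι, b.1 = a.1 ∧ Nonempty (τ.obj (D a) ≅ D b) := by
    intro a
    obtain ⟨h1, h2, ⟨p⟩⟩ := hl _ _ (hD a)
    obtain ⟨e⟩ := hτ a.1
    have p' : Retract (τ.obj (D a)) (E a.1) := (p.map τ).trans (Retract.ofIso e)
    have h3 : ∀ f : τ.obj (D a) ⟶ τ.obj (D a), f ≠ 0 → IsIso f := by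
      intro f hf
      obtain ⟨g, rfl⟩ := τ.map_surjective f
      have : IsIso g := h1.iso g fun h => hf (by rw [h, τ.map_zero])
      infer_instance
    have h4 : ¬ IsZero (τ.obj (D a)) := by
      intro h
      apply h2
      rw [IsZero.iff_id_eq_zero] at h ⊢
      apply τ.map_injective
      rw [τ.map_id, h, τ.map_zero]
    obtain ⟨D', hD', he⟩ := exists_iso_mem (hr a.1) (hs a.1) (hl a.1) (hO a.1) p' h3 h4
    obtain ⟨m, hm⟩ := List.mem_iff_get.1 hD'
    exact ⟨⟨a.1, m⟩, rfl, by rw [← hm] at he; exact he⟩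
  choose σ hσ1 hσ2 using hperm
  -- the whole list
  have hspan : ∀ x : K0 T, x ∈ AddSubgroup.closure (Set.range fun a => cls (D a)) := by
    have hall : ∀ X : T, cls X ∈ AddSubgroup.closure (Set.range fun a => cls (D a)) := by
      intro X
      let L : List T := (List.ofFn l).flatten
      have hL : ∀ Z, Z ∈ L ↔ ∃ i, Z ∈ l i := by
        intro Z
        simp [L, List.mem_flatten, List.mem_ofFn]
      have h1 : ∀ Z ∈ L, Divn Z := fun Z hZ => by
        obtain ⟨i, hi⟩ := (hL Z).1 hZ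
        exact (hl i Z hi).1
      have h2 : L.Pairwise Orth := by
        rw [List.pairwise_flatten]
        refine ⟨?_, ?_⟩
        · intro l' hl'
          obtain ⟨i, rfl⟩ := List.mem_ofFn.1 hl'
          exact (hp i).imp fun h => h.1
        · rw [List.pairwise_ofFn]
          intro i j hij X hX Y hY
          obtain ⟨-, -, ⟨q⟩⟩ := hl i X hX
          obtain ⟨-, -, ⟨q'⟩⟩ := hl j Y hY
          exact (ho i j hij).retract q q'
      have h3 : ∀ N : T, (∀ Z ∈ L, Orth Z N) → IsZero N := by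
        intro N hN
        refine hgen N fun i => hO i N fun Z hZ => hN Z ((hL Z).2 ⟨i, hZ⟩)
      have h4 := mem_span_of_list F L h1 h2 h3 (cls : T → K0 T) isAdd_cls X
      have h5 : (cls '' {D | D ∈ L} : Set (K0 T)) ⊆ Set.range fun a => cls (D a) := by
        rintro _ ⟨Z, hZ, rfl⟩
        obtain ⟨i, hi⟩ := (hL Z).1 hZ
        obtain ⟨m, rfl⟩ := List.mem_iff_get.1 hi
        exact ⟨⟨i, m⟩, rfl⟩
      have h6 := Submodule.span_mono (R := ℤ) h5 h4
      rw [← Submodule.mem_toAddSubgroup, Submodule.span_int_eq_addSubgroupClosure] at h6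
      exact h6
    intro x
    induction x using K0.induction with
    | h0 X => exact hall X
    | hz => exact AddSubgroup.zero_mem _
    | hadd a b ha hb => exact AddSubgroup.add_mem _ ha hb
    | hneg a ha => exact AddSubgroup.neg_mem _ ha
  have hpair : ∀ i, ∀ a b : Fin (l i).length, a ≠ b →
      Orth ((l i).get a) ((l i).get b) := by
    intro i a b hab
    have h1 := List.pairwise_iff_get.1 (hp i)
    rcases lt_or_gt_of_ne hab with h | h
    · exact (h1 a b h).1
    · exact (h1 b a h).2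
  have hsemi : SemiOrth (chi F (T := T)) (fun a : ι => cls (D a)) (fun a => (a.1 : ℕ))
      (fun a => (finrank F (D a ⟶ D a) : ℤ)) := by
    refine ⟨fun a => ?_, fun a b hab => ?_, fun a b hab hne => ?_⟩
    · rw [chi_cls, chiObj_divn F (hdiv a)]
    · rw [chi_cls]
      obtain ⟨-, -, ⟨q⟩⟩ := hl _ _ (hD a)
      obtain ⟨-, -, ⟨q'⟩⟩ := hl _ _ (hD b)
      exact chiObj_of_orth F ((ho a.1 b.1 hab).retract q q')
    · rw [chi_cls]
      obtain ⟨i, a⟩ := a
      obtain ⟨j, b⟩ := b
      have hij : i = j := Fin.ext hab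
      subst hij
      exact chiObj_of_orth F (hpair i a b fun h => hne (by rw [h]))
  refine no_collection hsemi hspan (fun a x => dvd_chi_divn F (hdiv a) (hnz a) x) (fun a => ?_)
    (K0.map τ) σ (fun a => ?_) (fun a => ?_) F1 F2
  · have hnt : Nontrivial (D a ⟶ D a) := by
      refine ⟨⟨𝟙 _, 0, fun h1 => hnz a ?_⟩⟩
      rw [IsZero.iff_id_eq_zero]
      exact h1
    have := Module.finrank_pos (R := F) (M := D a ⟶ D a)
    positivity
  · obtain ⟨e⟩ := hσ2 a
    rw [K0.map_cls]
    exact cls_iso e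
  · simp only [hσ1 a]

end

end Orl
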